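import Mathlib

set_option autoImplicit false

/-!
# Clique counts in uniform hypergraphs with bounded dominated number

The statement `g_r(s,t) = C(s+r-1, t)` for all `r ≥ 3`, `s ≥ 1`, `t ≥ r+1` is false.

Construction. Split a set of `r + d + q` vertices into `q` parts of size at least two, and let the edges be the `r`-sets
whose complement meets every part. The complement of a transversal is a clique on `r + d` vertices, so there are at
least as many copies of `K^r_{r+d}` as transversals. A dominated set `S` with more than `q + d` elements has exactly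
`q + d + 1` elements and `S \ {v}` meets every part for every `v ∈ S`, so `S` has at least `2 q` elements, which is
impossible when `q ≥ d + 2`. Hence the dominated number is at most `q + d`.
-/

namespace Pool.Agent.Results.MP_691546_co.TransversalComplements

open Finset

/-- Every hyperedge has exactly `r` elements. -/
def IsUniform {V : Type} (r : ℕ) (E : Finset (Finset V)) : Prop :=
  ∀ e ∈ E, e.card = r

/-- Every vertex lies in a hyperedge. -/
def NoIsolated {V : Type} (E : Finset (Finset V)) : Prop :=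
  ∀ v : V, ∃ e ∈ E, v ∈ e

/-- `D` is dominating: every vertex `v` outside `D` lies in a hyperedge `e` with `e \ {v} ⊆ D`. -/
def IsDominating {V : Type} [DecidableEq V] (E : Finset (Finset V)) (D : Finset V) : Prop :=
  ∀ v, v ∉ D → ∃ e ∈ E, v ∈ e ∧ e \ {v} ⊆ D

/-- `S` is dominated: its complement is dominating. -/
def IsDominated {V : Type} [Fintype V] [DecidableEq V] (E : Finset (Finset V)) (S : Finset V) : Prop :=
  IsDominating E Sᶜ

open Classical in
/-- The dominated number: the maximum size of a dominated set. -/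
noncomputable def phi {V : Type} [Fintype V] [DecidableEq V] (E : Finset (Finset V)) : ℕ :=
  ((univ : Finset (Finset V)).filter fun S => IsDominated E S).sup card

/-- `T` is the vertex set of a copy of the complete `r`-uniform hypergraph on `t` vertices. -/
def IsCopy {V : Type} (r t : ℕ) (E : Finset (Finset V)) (T : Finset V) : Prop :=
  T.card = t ∧ ∀ e, e ⊆ T → e.card = r → e ∈ E

open Classical in
/-- The number of copies of the complete `r`-uniform hypergraph on `t` vertices. -/
noncomputable def copies {V : Type} [Fintype V] (r t : ℕ) (E : Finset (Finset V)) : ℕ :=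
  ((univ : Finset (Finset V)).filter fun T => IsCopy r t E T).card

/-- The set of all numbers of copies of `K^r_t` in `r`-uniform hypergraphs without isolated vertices and with dominated
number at most `s`; `g_r(s,t)` is its greatest element. -/
def Counts (r s t : ℕ) : Set ℕ :=
  {N | ∃ (n : ℕ) (E : Finset (Finset (Fin n))),
    IsUniform r E ∧ NoIsolated E ∧ phi E ≤ s ∧ copies r t E = N}

/-- The statement of Q1: `g_r(s,t) = C(s+r-1,t)` for all `r ≥ 3`, `s ≥ 1` and `t ≥ r + 1`. -/
def Q1 : Prop :=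
  ∀ r s t : ℕ, 3 ≤ r → 1 ≤ s → r + 1 ≤ t → IsGreatest (Counts r s t) (Nat.choose (s + r - 1) t)

section construction

variable {V : Type} [Fintype V] [DecidableEq V] {q : ℕ}

/-- The `r`-sets whose complement meets every colour class of `p`. -/
def edges (r : ℕ) (p : V → Fin q) : Finset (Finset V) :=
  (univ : Finset (Finset V)).filter fun e => e.card = r ∧ ∀ i : Fin q, ∃ x, x ∉ e ∧ p x = i

lemma mem_edges {r : ℕ} {p : V → Fin q} {e : Finset V} :
    e ∈ edges r p ↔ e.card = r ∧ ∀ i : Fin q, ∃ x, x ∉ e ∧ p x = i := by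
  simp [edges]

lemma uniform_edges (r : ℕ) (p : V → Fin q) : IsUniform r (edges r p) :=
  fun _ he => (mem_edges.1 he).1

lemma noIsolated_edges {r d : ℕ} {p : V → Fin q} (h2 : ∀ (v : V) (i : Fin q), ∃ x, x ≠ v ∧ p x = i)
    (hcard : Fintype.card V = r + d + q) (hr : 1 ≤ r) : NoIsolated (edges r p) := by
  intro v
  choose x hx using h2 v
  set T : Finset V := univ.image x with hT
  have hTc : T.card ≤ q := by
    have := Finset.card_image_le (s := (univ : Finset (Fin q))) (f := x)
    simpa [hT] using this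
  have hvT : v ∉ T := by
    intro h
    rw [hT, Finset.mem_image] at h
    obtain ⟨i, _, hi⟩ := h
    exact (hx i).1 hi
  have h1 : ({v} : Finset V) ⊆ Tᶜ := by
    intro w hw
    rw [Finset.mem_singleton] at hw
    subst hw
    simpa using hvT
  have h3 : r ≤ (Tᶜ).card := by
    rw [Finset.card_compl, hcard]
    omega
  obtain ⟨e, hve, heT, hec⟩ := Finset.exists_subsuperset_card_eq h1 (by simpa using hr) h3
  refine ⟨e, mem_edges.2 ⟨hec, fun i => ⟨x i, ?_, (hx i).2⟩⟩, hve (by simp)⟩
  intro hmem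
  have := heT hmem
  rw [Finset.mem_compl] at this
  exact this (by rw [hT]; exact Finset.mem_image_of_mem x (Finset.mem_univ i))

lemma phi_edges_le {r d : ℕ} {p : V → Fin q} (hcard : Fintype.card V = r + d + q) (hr : 1 ≤ r)
    (hq : d + 2 ≤ q) : phi (edges r p) ≤ q + d := by
  unfold phi
  refine Finset.sup_le ?_
  intro S hS
  simp only [Finset.mem_filter, Finset.mem_univ, true_and] at hS
  have hdom : IsDominating (edges r p) Sᶜ := hS
  by_contra hlt
  push Not at hlt
  -- structure of the private edges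
  have hstep : ∀ v ∈ S, S.card ≤ q + d + 1 ∧ ∀ i : Fin q, ∃ x ∈ S, x ≠ v ∧ p x = i := by
    intro v hv
    obtain ⟨e, he, hve, hsub⟩ := hdom v (by simpa using hv)
    obtain ⟨hec, hei⟩ := mem_edges.1 he
    have hc1 : (e \ {v}).card = r - 1 := by
      rw [Finset.card_sdiff_of_subset (by simpa using hve), hec, Finset.card_singleton]
    have hc2 : (Sᶜ).card = r + d + q - S.card := by
      rw [Finset.card_compl, hcard]
    have hle := Finset.card_le_card hsub
    have hSn : S.card ≤ r + d + q := by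
      rw [← hcard]
      exact Finset.card_le_univ S
    have heq : e \ {v} = Sᶜ := Finset.eq_of_subset_of_card_le hsub (by omega)
    refine ⟨by omega, fun i => ?_⟩
    obtain ⟨x, hx, hpx⟩ := hei i
    refine ⟨x, ?_, ?_, hpx⟩
    · by_contra hxS
      have : x ∈ e \ {v} := by
        rw [heq]
        simpa using hxS
      exact hx (Finset.mem_sdiff.1 this).1
    · rintro rfl
      exact hx hve
  have hne : S.Nonempty := Finset.card_pos.1 (by omega)
  obtain ⟨v, hv⟩ := hne
  have hle := (hstep v hv).1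
  have htwo : ∀ i : Fin q, 2 ≤ (S.filter fun x => p x = i).card := by
    intro i
    obtain ⟨x, hx, _, hpx⟩ := (hstep v hv).2 i
    obtain ⟨y, hy, hyx, hpy⟩ := (hstep x hx).2 i
    have : 1 < (S.filter fun x => p x = i).card :=
      Finset.one_lt_card.2 ⟨x, by simp [hx, hpx], y, by simp [hy, hpy], Ne.symm hyx⟩
    omega
  have hsum : S.card = ∑ i : Fin q, (S.filter fun x => p x = i).card :=
    Finset.card_eq_sum_card_fiberwise (fun _ _ => Finset.mem_coe.2 (Finset.mem_univ _))
  have h2q : 2 * q ≤ S.card := by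
    rw [hsum]
    calc 2 * q = ∑ _i : Fin q, 2 := by simp [mul_comm]
      _ ≤ _ := Finset.sum_le_sum fun i _ => htwo i
  omega

lemma copies_edges_ge {r d : ℕ} (k : Fin q → ℕ) (e : (Σ i : Fin q, Fin (k i)) ≃ V)
    (hcard : Fintype.card V = r + d + q) :
    ∏ i, k i ≤ copies r (r + d) (edges r fun x => (e.symm x).1) := by
  have h1 : ∏ i, k i = (univ : Finset (∀ i, Fin (k i))).card := by
    rw [Finset.card_univ, Fintype.card_pi]
    simp
  rw [h1]
  unfold copies
  refine Finset.card_le_card_of_injOn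
    (fun f => ((univ : Finset (Fin q)).image fun i => e ⟨i, f i⟩)ᶜ) ?_ ?_
  · intro f _
    have hinj : Function.Injective fun i : Fin q => e ⟨i, f i⟩ := by
      intro i j hij
      have := e.injective hij
      exact (Sigma.mk.inj_iff.1 this).1
    have hc : (((univ : Finset (Fin q)).image fun i => e ⟨i, f i⟩)ᶜ).card = r + d := by
      rw [Finset.card_compl, Finset.card_image_of_injective _ hinj, hcard]
      simp
    simp only [Finset.coe_filter, Set.mem_ofPred_eq, Finset.mem_univ, true_and]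
    refine ⟨hc, fun e' he' hc' => mem_edges.2 ⟨hc', fun i => ⟨e ⟨i, f i⟩, ?_, by simp⟩⟩⟩
    intro hmem
    have := he' hmem
    rw [Finset.mem_compl] at this
    exact this (Finset.mem_image.2 ⟨i, Finset.mem_univ i, rfl⟩)
  · intro f _ g _ hfg
    have h2 : ((univ : Finset (Fin q)).image fun i => e ⟨i, f i⟩)
        = (univ : Finset (Fin q)).image fun i => e ⟨i, g i⟩ := compl_injective hfg
    funext i
    have hmem : e ⟨i, f i⟩ ∈ (univ : Finset (Fin q)).image fun i => e ⟨i, g i⟩ := by
      rw [← h2]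
      exact Finset.mem_image.2 ⟨i, Finset.mem_univ i, rfl⟩
    obtain ⟨j, _, hj⟩ := Finset.mem_image.1 hmem
    have h3 := e.injective hj
    obtain ⟨hji, hg⟩ := Sigma.mk.inj_iff.1 h3
    subst hji
    exact (eq_of_heq hg).symm

end construction

/-- The construction: `q ≥ d + 2` parts of sizes `k i ≥ 2`, with `r + d + q` vertices in total, give at least `∏ k i`
copies of `K^r_{r+d}` with dominated number at most `q + d`. -/
theorem construct (q d r : ℕ) (k : Fin q → ℕ) (hq : d + 2 ≤ q) (hr : 1 ≤ r) (hk : ∀ i, 2 ≤ k i)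
    (hsum : ∑ i, k i = r + d + q) : ∃ N ∈ Counts r (q + d) (r + d), ∏ i, k i ≤ N := by
  let e : (Σ i : Fin q, Fin (k i)) ≃ Fin (r + d + q) := finSigmaFinEquiv.trans (finCongr hsum)
  let p : Fin (r + d + q) → Fin q := fun x => (e.symm x).1
  have hcard : Fintype.card (Fin (r + d + q)) = r + d + q := Fintype.card_fin _
  have h2 : ∀ (v : Fin (r + d + q)) (i : Fin q), ∃ x, x ≠ v ∧ p x = i := by
    intro v i
    have hki := hk i
    let a : Fin (k i) := ⟨0, by omega⟩
    let b : Fin (k i) := ⟨1, by omega⟩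
    have hab : e ⟨i, a⟩ ≠ e ⟨i, b⟩ := by
      intro h
      have := e.injective h
      have h3 := eq_of_heq (Sigma.mk.inj_iff.1 this).2
      have h4 := congrArg Fin.val h3
      simp [a, b] at h4
    by_cases h : e ⟨i, a⟩ = v
    · exact ⟨e ⟨i, b⟩, fun h' => hab (h.trans h'.symm), by simp [p]⟩
    · exact ⟨e ⟨i, a⟩, h, by simp [p]⟩
  exact ⟨copies r (r + d) (edges r p),
    ⟨r + d + q, edges r p, uniform_edges r p, noIsolated_edges h2 hcard hr, phi_edges_le hcard hr hq, rfl⟩,
    copies_edges_ge k e hcard⟩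

/-- For `s = 4` and `t = r + 1` the binomial coefficient is exceeded for every `r ≥ 7`. -/
theorem fails_four (r : ℕ) (hr : 7 ≤ r) :
    ∃ N ∈ Counts r 4 (r + 1), Nat.choose (4 + r - 1) (r + 1) < N := by
  obtain ⟨N, hN, hle⟩ := construct 3 1 r ![(r + 4) / 3, (r + 5) / 3, (r + 6) / 3] (by omega) (by omega)
    (by
      intro i
      fin_cases i <;> simp <;> omega)
    (by
      simp [Fin.sum_univ_three]
      omega)
  refine ⟨N, hN, lt_of_lt_of_le ?_ hle⟩
  have h1 : Nat.choose (4 + r - 1) (r + 1) = Nat.choose (4 + r - 1) 2 :=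
    Nat.choose_symm_of_eq_add (by omega)
  rw [h1, Nat.choose_two_right]
  simp only [Fin.prod_univ_three, Matrix.cons_val_zero, Matrix.cons_val_one, Matrix.cons_val]
  rw [Nat.div_lt_iff_lt_mul (by norm_num)]
  obtain ⟨m, hm | hm | hm⟩ : ∃ m, r + 4 = 3 * m ∨ r + 4 = 3 * m + 1 ∨ r + 4 = 3 * m + 2 :=
    ⟨(r + 4) / 3, by omega⟩
  · have e1 : (r + 4) / 3 = m := by omega
    have e2 : (r + 5) / 3 = m := by omega
    have e3 : (r + 6) / 3 = m := by omega
    have e4 : 4 + r - 1 = 3 * m - 1 := by omega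
    rw [e1, e2, e3, e4]
    obtain ⟨c, rfl⟩ : ∃ c, m = c + 4 := ⟨m - 4, by omega⟩
    have e5 : 3 * (c + 4) - 1 = 3 * c + 11 := by omega
    rw [e5]
    have e6 : 3 * c + 11 - 1 = 3 * c + 10 := by omega
    rw [e6]
    have e7 : (c + 4) * (c + 4) * (c + 4) * 2
        = (3 * c + 11) * (3 * c + 10) + (2 * c ^ 3 + 15 * c ^ 2 + 33 * c + 18) := by ring
    rw [e7]
    exact Nat.lt_add_of_pos_right (by positivity)
  · have e1 : (r + 4) / 3 = m := by omega
    have e2 : (r + 5) / 3 = m := by omega
    have e3 : (r + 6) / 3 = m + 1 := by omega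
    have e4 : 4 + r - 1 = 3 * m := by omega
    rw [e1, e2, e3, e4]
    obtain ⟨c, rfl⟩ : ∃ c, m = c + 4 := ⟨m - 4, by omega⟩
    have e6 : 3 * (c + 4) - 1 = 3 * c + 11 := by omega
    rw [e6]
    nlinarith
  · have e1 : (r + 4) / 3 = m := by omega
    have e2 : (r + 5) / 3 = m + 1 := by omega
    have e3 : (r + 6) / 3 = m + 1 := by omega
    have e4 : 4 + r - 1 = 3 * m + 1 := by omega
    rw [e1, e2, e3, e4]
    obtain ⟨c, rfl⟩ : ∃ c, m = c + 3 := ⟨m - 3, by omega⟩
    have e6 : 3 * (c + 3) + 1 - 1 = 3 * c + 9 := by omega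
    rw [e6]
    have e7 : (c + 3) * (c + 3 + 1) * (c + 3 + 1) * 2
        = (3 * (c + 3) + 1) * (3 * c + 9) + (2 * c ^ 3 + 13 * c ^ 2 + 23 * c + 6) := by ring
    rw [e7]
    exact Nat.lt_add_of_pos_right (by positivity)

/-- For every `d ≥ 1` and `s ≥ 2 d + 2` the binomial coefficient is exceeded for `t = r + d` and all large `r`. -/
theorem fails_general (d s : ℕ) (hd : 1 ≤ d) (hs : 2 * d + 2 ≤ s) :
    ∃ r₀ : ℕ, ∀ r, r₀ ≤ r → ∃ N ∈ Counts r s (r + d), Nat.choose (s + r - 1) (r + d) < N := by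
  obtain ⟨q, rfl⟩ : ∃ q, s = q + d := ⟨s - d, by omega⟩
  have hq : d + 2 ≤ q := by omega
  refine ⟨q * (2 * q) ^ (q - 1) + q * 2 + 1, ?_⟩
  intro r hr
  set n := r + d + q with hn
  set m := n / q with hm
  have hq0 : 0 < q := by omega
  have hmn : q * m ≤ n := Nat.mul_div_le n q
  have hnm : n < q * (m + 1) := by
    have := Nat.lt_mul_div_succ n hq0
    simpa [hm] using this
  have hbig : (2 * q) ^ (q - 1) + 2 ≤ m := by
    rw [hm, Nat.le_div_iff_mul_le hq0]
    calc ((2 * q) ^ (q - 1) + 2) * q = q * (2 * q) ^ (q - 1) + q * 2 := by ring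
      _ ≤ n := by omega
  have hm2 : 2 ≤ m := by omega
  obtain ⟨q', rfl⟩ : ∃ q', q = q' + 1 := ⟨q - 1, by omega⟩
  simp only [Nat.add_sub_cancel] at hbig
  have hmn' : q' * m + m ≤ n := by
    have : (q' + 1) * m = q' * m + m := by ring
    omega
  let k : Fin (q' + 1) → ℕ := Fin.cons (n - q' * m) fun _ => m
  have hksum : ∑ i, k i = r + d + (q' + 1) := by
    rw [Fin.sum_univ_succ]
    simp only [k, Fin.cons_zero, Fin.cons_succ, Finset.sum_const, Finset.card_univ, Fintype.card_fin,
      smul_eq_mul]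
    omega
  have hk0 : ∀ i, m ≤ k i := by
    intro i
    refine Fin.cases ?_ (fun j => ?_) i
    · simp only [k, Fin.cons_zero]
      omega
    · simp [k]
  obtain ⟨N, hN, hle⟩ := construct (q' + 1) d r k hq (by omega) (fun i => le_trans hm2 (hk0 i)) hksum
  refine ⟨N, hN, lt_of_lt_of_le ?_ hle⟩
  have hprod : m ^ (q' + 1) ≤ ∏ i, k i := by
    calc m ^ (q' + 1) = ∏ _i : Fin (q' + 1), m := by simp
      _ ≤ _ := Finset.prod_le_prod' fun i _ => hk0 i
  refine lt_of_lt_of_le ?_ hprod
  have h1 : Nat.choose (q' + 1 + d + r - 1) (r + d) = Nat.choose (q' + 1 + d + r - 1) q' :=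
    Nat.choose_symm_of_eq_add (by omega)
  rw [h1]
  have hq'0 : q' ≠ 0 := by omega
  calc Nat.choose (q' + 1 + d + r - 1) q' ≤ (q' + 1 + d + r - 1) ^ q' := Nat.choose_le_pow _ _
    _ < (2 * (q' + 1) * m) ^ q' := by
        apply Nat.pow_lt_pow_left _ hq'0
        have h3 : (q' + 1) * (m + 1) ≤ 2 * (q' + 1) * m := by nlinarith
        omega
    _ = (2 * (q' + 1)) ^ q' * m ^ q' := by rw [mul_pow]
    _ ≤ m * m ^ q' := Nat.mul_le_mul_right _ (by omega)
    _ = m ^ (q' + 1) := by ring

/-- Q1 is false. It already fails at `r = 7`, `s = 4`, `t = 8`, at `(s, t) = (4, r + 1)` for every `r ≥ 7`, and for every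
`d ≥ 1` and `s ≥ 2 d + 2` at `(s, t) = (s, r + d)` for all sufficiently large `r`. The last part is the lower bound that
gives all this: if `q ≥ d + 2` and `k` is a list of `q` integers `≥ 2` with sum `r + d + q`, then `∏ k i` copies of
`K^r_{r+d}` are possible with dominated number at most `q + d`. -/
theorem result :
    ¬ Q1 ∧
    (∀ r : ℕ, 7 ≤ r → ∃ N ∈ Counts r 4 (r + 1), Nat.choose (4 + r - 1) (r + 1) < N) ∧
    (∀ d s : ℕ, 1 ≤ d → 2 * d + 2 ≤ s → ∃ r₀ : ℕ, ∀ r, r₀ ≤ r →
      ∃ N ∈ Counts r s (r + d), Nat.choose (s + r - 1) (r + d) < N) ∧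
    (∀ (q d r : ℕ) (k : Fin q → ℕ), d + 2 ≤ q → 1 ≤ r → (∀ i, 2 ≤ k i) → ∑ i, k i = r + d + q →
      ∃ N ∈ Counts r (q + d) (r + d), ∏ i, k i ≤ N) := by
  refine ⟨?_, fails_four, fails_general, construct⟩
  intro h
  obtain ⟨N, hN, hlt⟩ := fails_four 7 le_rfl
  have h1 := (h 7 4 8 (by norm_num) (by norm_num) (by norm_num)).2 hN
  exact absurd hlt (not_lt.2 h1)

end Pool.Agent.Results.MP_691546_co.TransversalComplements
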